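import Pool.Agent.Helper98.PGN.Ten

/-!
PrimeGeometricGenus (MP_b8862a_ag), construction (1): the generic member has only scalar endomorphisms, and its Mumford-Tate
group is not the group of all isometries.
-/

set_option linter.unusedSectionVars false
set_option linter.unusedSimpArgs false

open Matrix
open scoped Kronecker

namespace MH

namespace PG98

variable {s : ℕ}

/-- small steps in both directions of a line stay in an open set -/
theorem exists_step {T : Type*} [AddCommGroup T] [Module ℝ T] [TopologicalSpace T] [ContinuousAdd T] [ContinuousSMul ℝ T]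
    {U : Set T} (hU : IsOpen U) {t : T} (ht : t ∈ U) (d : T) :
    ∃ δ : ℝ, δ ≠ 0 ∧ t + δ • d ∈ U ∧ t + (-δ) • d ∈ U := by
  have hc : Continuous fun δ : ℝ => t + δ • d := by fun_prop
  have h0 : (fun δ : ℝ => t + δ • d) ⁻¹' U ∈ nhds (0 : ℝ) := by
    refine (hU.preimage hc).mem_nhds ?_
    show t + (0 : ℝ) • d ∈ U
    rwa [zero_smul, add_zero]
  obtain ⟨r, hr, hball⟩ := Metric.mem_nhds_iff.1 h0
  refine ⟨r / 2, by positivity, hball ?_, hball ?_⟩
  · rw [Metric.mem_ball, Real.dist_eq, sub_zero, abs_of_pos (by positivity)]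
    linarith
  · rw [Metric.mem_ball, Real.dist_eq, sub_zero, abs_neg, abs_of_pos (by positivity)]
    linarith

theorem Cm_add_x (x δ : ℂ) (B : Matrix (Fin s) (Fin s) ℂ) :
    Cm (x + δ) B = Cm x B + δ • (k3 (Hd ℂ) 1 1 - (2 * x) • k3 (E ℂ) 1 1) - (δ * δ) • k3 (E ℂ) 1 1 := by
  ext i j
  simp only [Cm, Matrix.add_apply, Matrix.sub_apply, Matrix.smul_apply, k3_apply, smul_eq_mul]
  ring

theorem Cm_add_B (x δ : ℂ) (B S : Matrix (Fin s) (Fin s) ℂ) :
    Cm x (B + δ • S) = Cm x B + δ • (k3 1 (Hd ℂ) S - k3 1 (E ℂ) (B * S + S * B)) - (δ * δ) • k3 1 (E ℂ) (S * S) := by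
  have h1 : (B + δ • S) * (B + δ • S) = B * B + δ • (B * S + S * B) + (δ * δ) • (S * S) := by
    rw [add_mul, mul_add, mul_add, smul_mul_smul_comm, smul_mul_assoc, mul_smul_comm, smul_add]
    abel
  rw [Cm, Cm, h1]
  ext i j
  simp only [Matrix.add_apply, Matrix.sub_apply, Matrix.smul_apply, k3_apply, smul_eq_mul]
  ring

/-- the commutant -/
def Cen (X : Matrix (Ix s) (Ix s) ℂ) : Subalgebra ℂ (Matrix (Ix s) (Ix s) ℂ) := Subalgebra.centralizer ℂ {X}

theorem mem_Cen {X Y : Matrix (Ix s) (Ix s) ℂ} : Y ∈ Cen X ↔ X * Y = Y * X := by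
  rw [Cen, Subalgebra.mem_centralizer_iff]
  simp

/-- from three values of a quadratic polynomial to its coefficients -/
theorem quad_mem {X C0 C1 C2 : Matrix (Ix s) (Ix s) ℂ} {δ : ℂ} (hδ : δ ≠ 0) (h0 : C0 ∈ Cen X)
    (h1 : C0 + δ • C1 - (δ * δ) • C2 ∈ Cen X) (h2 : C0 + (-δ) • C1 - (-δ * -δ) • C2 ∈ Cen X) :
    C1 ∈ Cen X ∧ C2 ∈ Cen X := by
  constructor
  · have h3 := (Cen X).smul_mem ((Cen X).sub_mem h1 h2) ((2 * δ)⁻¹)
    have h4 : (2 * δ)⁻¹ • (C0 + δ • C1 - (δ * δ) • C2 - (C0 + (-δ) • C1 - (-δ * -δ) • C2)) = C1 := by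
      have e1 : C0 + δ • C1 - (δ * δ) • C2 - (C0 + (-δ) • C1 - (-δ * -δ) • C2) = (2 * δ) • C1 := by
        rw [neg_mul_neg, neg_smul, two_mul, add_smul]
        abel
      rw [e1, smul_smul, inv_mul_cancel₀ (mul_ne_zero two_ne_zero hδ), one_smul]
    rwa [h4] at h3
  · have h3 := (Cen X).smul_mem ((Cen X).sub_mem ((Cen X).smul_mem h0 (2 : ℂ)) ((Cen X).add_mem h1 h2))
      ((2 * (δ * δ))⁻¹)
    have h4 : (2 * (δ * δ))⁻¹ • ((2 : ℂ) • C0 - (C0 + δ • C1 - (δ * δ) • C2 + (C0 + (-δ) • C1 - (-δ * -δ) • C2))) = C2 := by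
      have e1 : (2 : ℂ) • C0 - (C0 + δ • C1 - (δ * δ) • C2 + (C0 + (-δ) • C1 - (-δ * -δ) • C2)) =
          (2 * (δ * δ)) • C2 := by
        rw [neg_mul_neg, neg_smul, two_smul, two_mul, add_smul]
        abel
      rw [e1, smul_smul, inv_mul_cancel₀ (mul_ne_zero two_ne_zero (mul_ne_zero hδ hδ)), one_smul]
    rwa [h4] at h3

/-- the generators in the commutant -/
theorem gens_mem {U : Set (Tp s)} (hU : IsOpen U) {t : Tp s} (ht : t ∈ U) {X : Matrix (Ix s) (Ix s) ℂ}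
    (h : ∀ t ∈ U, ∀ p, X * Pt t p = Pt t p * X) :
    k3 (Hd ℂ) 1 1 ∈ Cen X ∧ k3 (E ℂ) 1 1 ∈ Cen X ∧ k3 1 (E ℂ) 1 ∈ Cen X ∧ k3 1 (Hd ℂ) 1 ∈ Cen X ∧
      ∀ N : Fin s → Fin s → ℝ, k3 1 1 (Bm N) ∈ Cen X := by
  have hC : ∀ t ∈ U, Cm (t.1 : ℂ) (Bm t.2) ∈ Cen X := fun t ht => mem_Cen.2 (comm_Cm (h t ht))
  -- the first factor
  have hx : k3 (Hd ℂ) 1 1 - (2 * (t.1 : ℂ)) • k3 (E ℂ) 1 1 ∈ Cen X ∧ k3 (E ℂ) 1 1 ∈ Cen X := by
    obtain ⟨δ, hδ, h1, h2⟩ := exists_step hU ht ((1, 0) : Tp s)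
    have h3 := hC _ h1
    have h4 := hC _ h2
    have e1 : ∀ δ : ℝ, Cm (((t + δ • ((1, 0) : Tp s)).1 : ℝ) : ℂ) (Bm (t + δ • ((1, 0) : Tp s)).2) =
        Cm ((t.1 : ℂ) + (δ : ℂ)) (Bm t.2) := by
      intro δ
      simp
    rw [e1, Cm_add_x] at h3 h4
    push_cast at h4
    exact quad_mem (by exact_mod_cast hδ) (hC t ht) h3 h4
  have hE : k3 (E ℂ) 1 1 ∈ Cen X := hx.2
  have hH : k3 (Hd ℂ) 1 1 ∈ Cen X := by
    have h1 := (Cen X).add_mem hx.1 ((Cen X).smul_mem hE (2 * (t.1 : ℂ)))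
    rwa [sub_add_cancel] at h1
  -- the second factor
  have hB : ∀ N : Fin s → Fin s → ℝ, k3 1 (Hd ℂ) (Bm N) - k3 1 (E ℂ) (Bm t.2 * Bm N + Bm N * Bm t.2) ∈ Cen X ∧
      k3 1 (E ℂ) (Bm N * Bm N) ∈ Cen X := by
    intro N
    obtain ⟨δ, hδ, h1, h2⟩ := exists_step hU ht ((0, N) : Tp s)
    have h3 := hC _ h1
    have h4 := hC _ h2
    have e1 : ∀ δ : ℝ, Cm (((t + δ • ((0, N) : Tp s)).1 : ℝ) : ℂ) (Bm (t + δ • ((0, N) : Tp s)).2) =
        Cm (t.1 : ℂ) (Bm t.2 + (δ : ℂ) • Bm N) := by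
      intro δ
      rw [Prod.snd_add, Prod.smul_snd, Bm_add, Bm_smul]
      simp
    rw [e1, Cm_add_B] at h3 h4
    push_cast at h4
    exact quad_mem (by exact_mod_cast hδ) (hC t ht) h3 h4
  have hpol : ∀ M N : Fin s → Fin s → ℝ, k3 1 (E ℂ) (Bm M * Bm N + Bm N * Bm M) ∈ Cen X := by
    intro M N
    have h1 := (hB (M + N)).2
    have h2 := (hB M).2
    have h3 := (hB N).2
    have h4 := (Cen X).sub_mem ((Cen X).sub_mem h1 h2) h3
    have e1 : k3 1 (E ℂ) (Bm (M + N) * Bm (M + N)) - k3 1 (E ℂ) (Bm M * Bm M) - k3 1 (E ℂ) (Bm N * Bm N) =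
        k3 1 (E ℂ) (Bm M * Bm N + Bm N * Bm M) := by
      rw [Bm_add, add_mul, mul_add, mul_add]
      ext i j
      simp only [Matrix.add_apply, Matrix.sub_apply, k3_apply]
      ring
    rwa [e1] at h4
  have hHB : ∀ N : Fin s → Fin s → ℝ, k3 1 (Hd ℂ) (Bm N) ∈ Cen X := by
    intro N
    have h1 := (Cen X).add_mem (hB N).1 (hpol t.2 N)
    rwa [sub_add_cancel] at h1
  have hone : Bm (fun i j : Fin s => if i = j then (1 / 2 : ℝ) else 0) = 1 := by
    ext i j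
    rw [Bm, Matrix.one_apply]
    by_cases hij : i = j
    · rw [if_pos hij, if_pos hij.symm, if_pos hij]
      norm_num
    · rw [if_neg hij, if_neg (Ne.symm hij), if_neg hij]
      norm_num
  have hE2 : k3 1 (E ℂ) 1 ∈ Cen X := by
    have h1 := (hB (fun i j : Fin s => if i = j then (1 / 2 : ℝ) else 0)).2
    rwa [hone, mul_one] at h1
  have hH2 : k3 1 (Hd ℂ) 1 ∈ Cen X := by
    have h1 := hHB (fun i j : Fin s => if i = j then (1 / 2 : ℝ) else 0)
    rwa [hone] at h1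
  refine ⟨hH, hE, hE2, hH2, fun N => ?_⟩
  have h1 := (Cen X).mul_mem hH2 (hHB N)
  have e1 : Hd ℂ * Hd ℂ = 1 := by
    ext i j
    fin_cases i <;> fin_cases j <;> simp [Hd]
  rwa [k3_mul, e1, one_mul, one_mul] at h1

/-- a matrix that commutes with the generators is scalar -/
theorem scalar_of_gens {A : Matrix (Ix s) (Ix s) ℚ} (hs : 0 < s)
    (h : k3 (Hd ℂ) 1 1 ∈ Cen (toC A) ∧ k3 (E ℂ) 1 1 ∈ Cen (toC A) ∧ k3 1 (E ℂ) 1 ∈ Cen (toC A) ∧
      k3 1 (Hd ℂ) 1 ∈ Cen (toC A) ∧ ∀ N : Fin s → Fin s → ℝ, k3 1 1 (Bm N) ∈ Cen (toC A)) :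
    ∃ c : ℚ, A = c • (1 : Matrix (Ix s) (Ix s) ℚ) := by
  obtain ⟨hH, hE, hE2, hH2, hN⟩ := h
  rw [mem_Cen] at hH hE hE2 hH2
  have hN' : ∀ N : Fin s → Fin s → ℝ, toC A * k3 1 1 (Bm N) = k3 1 1 (Bm N) * toC A := fun N => mem_Cen.1 (hN N)
  have hA : ∀ i j, toC A i j = (A i j : ℂ) := fun i j => rfl
  -- commuting with a diagonal matrix
  have hdiag : ∀ (d : Ix s → ℂ), toC A * Matrix.diagonal d = Matrix.diagonal d * toC A → ∀ i j, d i ≠ d j →
      A i j = 0 := by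
    intro d hd i j hij
    have h1 := congrFun (congrFun hd i) j
    rw [Matrix.mul_diagonal, Matrix.diagonal_mul, hA] at h1
    have h2 : (A i j : ℂ) * (d j - d i) = 0 := by linear_combination h1
    rcases mul_eq_zero.1 h2 with h3 | h3
    · exact_mod_cast h3
    · exact absurd (sub_eq_zero.1 h3).symm hij
  have d1 : k3 (Hd ℂ) 1 1 = Matrix.diagonal fun i : Ix s => if i.1 = 0 then (1 : ℂ) else -1 := by
    ext i j
    obtain ⟨i1, i2, i3⟩ := i
    obtain ⟨j1, j2, j3⟩ := j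
    simp only [k3_apply, Matrix.diagonal_apply, Prod.mk.injEq, Matrix.one_apply]
    fin_cases i1 <;> fin_cases j1 <;> by_cases h2 : i2 = j2 <;> by_cases h3 : i3 = j3 <;> simp [Hd, h2, h3]
  have d2 : k3 1 (Hd ℂ) 1 = Matrix.diagonal fun i : Ix s => if i.2.1 = 0 then (1 : ℂ) else -1 := by
    ext i j
    obtain ⟨i1, i2, i3⟩ := i
    obtain ⟨j1, j2, j3⟩ := j
    simp only [k3_apply, Matrix.diagonal_apply, Prod.mk.injEq, Matrix.one_apply]
    fin_cases i2 <;> fin_cases j2 <;> by_cases h2 : i1 = j1 <;> by_cases h3 : i3 = j3 <;> simp [Hd, h2, h3]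
  have d3 : ∀ k : Fin s, k3 1 1 (Bm fun i j : Fin s => if i = k ∧ j = k then (1 / 2 : ℝ) else 0) =
      Matrix.diagonal fun i : Ix s => if i.2.2 = k then (1 : ℂ) else 0 := by
    intro k
    ext i j
    obtain ⟨i1, i2, i3⟩ := i
    obtain ⟨j1, j2, j3⟩ := j
    simp only [k3_apply, Matrix.diagonal_apply, Prod.mk.injEq, Matrix.one_apply, Bm]
    by_cases h1 : i1 = j1
    · by_cases h2 : i2 = j2
      · by_cases h3 : i3 = j3
        · subst h3
          by_cases h4 : i3 = k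
          · simp [h1, h2, h4]
            norm_num
          · simp [h1, h2, h4]
        · have h5 : ¬ (i3 = k ∧ j3 = k) := fun h => h3 (h.1.trans h.2.symm)
          have h6 : ¬ (j3 = k ∧ i3 = k) := fun h => h3 (h.2.trans h.1.symm)
          simp [h1, h2, h3, h5, h6]
      · simp [h2]
    · simp [h1]
  have z1 : ∀ i j : Ix s, i.1 ≠ j.1 → A i j = 0 := by
    intro i j hij
    refine hdiag _ (d1 ▸ hH) i j ?_
    obtain ⟨i1, i2, i3⟩ := i
    obtain ⟨j1, j2, j3⟩ := j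
    fin_cases i1 <;> fin_cases j1 <;> simp at hij ⊢ <;> norm_num
  have z2 : ∀ i j : Ix s, i.2.1 ≠ j.2.1 → A i j = 0 := by
    intro i j hij
    refine hdiag _ (d2 ▸ hH2) i j ?_
    obtain ⟨i1, i2, i3⟩ := i
    obtain ⟨j1, j2, j3⟩ := j
    fin_cases i2 <;> fin_cases j2 <;> simp at hij ⊢ <;> norm_num
  have z3 : ∀ i j : Ix s, i.2.2 ≠ j.2.2 → A i j = 0 := by
    intro i j hij
    refine hdiag _ (d3 i.2.2 ▸ hN' _) i j ?_
    simp [Ne.symm hij]
  have z : ∀ i j : Ix s, i ≠ j → A i j = 0 := by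
    intro i j hij
    by_cases h1 : i.1 = j.1
    · by_cases h2 : i.2.1 = j.2.1
      · exact z3 i j fun h3 => hij (Prod.ext h1 (Prod.ext h2 h3))
      · exact z2 i j h2
    · exact z1 i j h1
  -- the diagonal entries
  have hAd : toC A = Matrix.diagonal fun i => (A i i : ℂ) := by
    ext i j
    rw [hA, Matrix.diagonal_apply]
    split_ifs with hij
    · rw [hij]
    · rw [z i j hij, Rat.cast_zero]
  have heq : ∀ (Y : Matrix (Ix s) (Ix s) ℂ), toC A * Y = Y * toC A → ∀ i j, Y i j ≠ 0 → A i i = A j j := by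
    intro Y hY i j hij
    rw [hAd] at hY
    have h1 := congrFun (congrFun hY i) j
    rw [Matrix.diagonal_mul, Matrix.mul_diagonal, mul_comm] at h1
    exact_mod_cast mul_left_cancel₀ hij h1
  have y1 : ∀ (b : Fin 2) (k : Fin s), A (0, b, k) (0, b, k) = A (1, b, k) (1, b, k) := by
    intro b k
    refine heq _ hE _ _ ?_
    simp [k3_apply, E]
  have y2 : ∀ (a : Fin 2) (k : Fin s), A (a, 0, k) (a, 0, k) = A (a, 1, k) (a, 1, k) := by
    intro a k
    refine heq _ hE2 _ _ ?_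
    simp [k3_apply, E]
  have y3 : ∀ (a b : Fin 2) (k l : Fin s), A (a, b, k) (a, b, k) = A (a, b, l) (a, b, l) := by
    intro a b k l
    by_cases hkl : k = l
    · rw [hkl]
    refine heq _ (hN' fun i j : Fin s => if i = k ∧ j = l then (1 : ℝ) else 0) _ _ ?_
    have h1 : ¬ (l = k ∧ k = l) := fun h => hkl h.2
    simp [k3_apply, Bm, h1]
  let o : Fin s := ⟨0, hs⟩
  have y0 : ∀ i : Ix s, A i i = A (0, 0, o) (0, 0, o) := by
    rintro ⟨a, b, k⟩
    rw [y3 a b k o]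
    have h1 : A (a, b, o) (a, b, o) = A (a, 0, o) (a, 0, o) := by
      fin_cases b
      · rfl
      · exact (y2 a o).symm
    rw [h1]
    fin_cases a
    · rfl
    · exact (y1 0 o).symm
  refine ⟨A (0, 0, o) (0, 0, o), ?_⟩
  ext i j
  rw [Matrix.smul_apply, Matrix.one_apply, smul_eq_mul]
  split_ifs with hij
  · rw [mul_one, hij, y0]
  · rw [mul_zero, z i j hij]

/-! ### not the full group -/

/-- the partial trace over the second factor, tensored with the identity -/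
def ffun {R : Type*} [CommRing R] (X : Matrix (Ix s) (Ix s) R) : Matrix (Ix s) (Ix s) R :=
  Matrix.of fun i j => if i.2 = j.2 then ∑ c : Fin 2 × Fin s, X (i.1, c) (j.1, c) else 0

theorem ffun_apply {R : Type*} [CommRing R] (X : Matrix (Ix s) (Ix s) R) (i j : Ix s) :
    ffun X i j = if i.2 = j.2 then ∑ c : Fin 2 × Fin s, X (i.1, c) (j.1, c) else 0 := rfl

/-- the same as a linear map -/
def FF (R : Type*) [CommRing R] (s : ℕ) : Matrix (Ix s) (Ix s) R →ₗ[R] Matrix (Ix s) (Ix s) R where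
  toFun := ffun
  map_add' X Y := by
    ext i j
    rw [Matrix.add_apply, ffun_apply, ffun_apply, ffun_apply]
    split_ifs
    · rw [← Finset.sum_add_distrib]
      rfl
    · rw [add_zero]
  map_smul' c X := by
    ext i j
    rw [RingHom.id_apply, Matrix.smul_apply, ffun_apply, ffun_apply, smul_eq_mul]
    split_ifs
    · rw [Finset.mul_sum]
      rfl
    · rw [mul_zero]

theorem FF_apply {R : Type*} [CommRing R] (X : Matrix (Ix s) (Ix s) R) (i j : Ix s) :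
    FF R s X i j = if i.2 = j.2 then ∑ c : Fin 2 × Fin s, X (i.1, c) (j.1, c) else 0 := rfl

theorem FF_rat (A : Matrix (Ix s) (Ix s) ℚ) : FF ℂ s (toC A) = toC (FF ℚ s A) := by
  ext i j
  show _ = algebraMap ℚ ℂ (FF ℚ s A i j)
  rw [FF_apply, FF_apply]
  split_ifs
  · rw [map_sum]
    rfl
  · rw [map_zero]

/-- it commutes with the commutator with a matrix of the first factor -/
theorem FF_left (Y : Matrix (Fin 2) (Fin 2) ℂ) (X : Matrix (Ix s) (Ix s) ℂ) :
    FF ℂ s (k3 Y 1 1 * X) = k3 Y 1 1 * FF ℂ s X ∧ FF ℂ s (X * k3 Y 1 1) = FF ℂ s X * k3 Y 1 1 := by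
  have h1 : ∀ (Z : Matrix (Ix s) (Ix s) ℂ) (i j : Ix s), ((k3 Y 1 1 : Matrix (Ix s) (Ix s) ℂ) * Z) i j = ∑ a, Y i.1 a * Z (a, i.2) j := by
    intro Z i j
    rw [Matrix.mul_apply, Fintype.sum_prod_type]
    refine Finset.sum_congr rfl fun a _ => ?_
    rw [Finset.sum_eq_single i.2]
    · simp [k3_apply]
    · rintro ⟨b, k⟩ _ hb
      rw [k3_apply]
      have h2 : (1 : Matrix (Fin 2) (Fin 2) ℂ) i.2.1 b * (1 : Matrix (Fin s) (Fin s) ℂ) i.2.2 k = 0 := by
        rw [Matrix.one_apply, Matrix.one_apply]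
        by_cases h3 : i.2.1 = b
        · by_cases h4 : i.2.2 = k
          · exact absurd (Prod.ext h3.symm h4.symm) hb
          · rw [if_neg h4, mul_zero]
        · rw [if_neg h3, zero_mul]
      simp only [h2, mul_zero, zero_mul]
    · intro h
      exact absurd (Finset.mem_univ _) h
  have h2 : ∀ (Z : Matrix (Ix s) (Ix s) ℂ) (i j : Ix s), (Z * (k3 Y 1 1 : Matrix (Ix s) (Ix s) ℂ)) i j = ∑ a, Z i (a, j.2) * Y a j.1 := by
    intro Z i j
    rw [Matrix.mul_apply, Fintype.sum_prod_type]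
    refine Finset.sum_congr rfl fun a _ => ?_
    rw [Finset.sum_eq_single j.2]
    · simp [k3_apply]
    · rintro ⟨b, k⟩ _ hb
      rw [k3_apply]
      have h2 : (1 : Matrix (Fin 2) (Fin 2) ℂ) b j.2.1 * (1 : Matrix (Fin s) (Fin s) ℂ) k j.2.2 = 0 := by
        rw [Matrix.one_apply, Matrix.one_apply]
        by_cases h3 : b = j.2.1
        · by_cases h4 : k = j.2.2
          · exact absurd (Prod.ext h3 h4) hb
          · rw [if_neg h4, mul_zero]
        · rw [if_neg h3, zero_mul]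
      simp only [h2, mul_zero]
    · intro h
      exact absurd (Finset.mem_univ _) h
  constructor
  · ext i j
    rw [h1, FF_apply]
    simp only [FF_apply, h1]
    split_ifs
    · rw [Finset.sum_comm]
      exact Finset.sum_congr rfl fun a _ => (Finset.mul_sum _ _ _).symm
    · simp
  · ext i j
    rw [h2, FF_apply]
    simp only [FF_apply, h2]
    split_ifs
    · rw [Finset.sum_comm]
      exact Finset.sum_congr rfl fun a _ => (Finset.sum_mul _ _ _).symm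
    · simp

/-- a matrix of the second factor -/
def kr (W : Matrix (Fin 2 × Fin s) (Fin 2 × Fin s) ℂ) : Matrix (Ix s) (Ix s) ℂ := (1 : Matrix (Fin 2) (Fin 2) ℂ) ⊗ₖ W

/-- it kills the commutators with the matrices of the second factor, which commute with its values -/
theorem FF_right (W : Matrix (Fin 2 × Fin s) (Fin 2 × Fin s) ℂ) (X : Matrix (Ix s) (Ix s) ℂ) :
    FF ℂ s (kr W * X) = FF ℂ s (X * kr W) ∧ kr W * FF ℂ s X = FF ℂ s X * kr W := by
  have h1 : ∀ (Z : Matrix (Ix s) (Ix s) ℂ) (i j : Ix s), (kr W * Z) i j = ∑ c, W i.2 c * Z (i.1, c) j := by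
    intro Z i j
    rw [Matrix.mul_apply, Fintype.sum_prod_type, Finset.sum_eq_single i.1]
    · simp [kr, Matrix.kroneckerMap_apply]
    · intro a _ ha
      simp [kr, Matrix.kroneckerMap_apply, Matrix.one_apply, Ne.symm ha]
    · intro h
      exact absurd (Finset.mem_univ _) h
  have h2 : ∀ (Z : Matrix (Ix s) (Ix s) ℂ) (i j : Ix s), (Z * kr W) i j = ∑ c, Z i (j.1, c) * W c j.2 := by
    intro Z i j
    rw [Matrix.mul_apply, Fintype.sum_prod_type, Finset.sum_eq_single j.1]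
    · simp [kr, Matrix.kroneckerMap_apply]
    · intro a _ ha
      simp [kr, Matrix.kroneckerMap_apply, Matrix.one_apply, ha]
    · intro h
      exact absurd (Finset.mem_univ _) h
  constructor
  · ext i j
    rw [FF_apply, FF_apply]
    split_ifs
    · simp only [h1, h2]
      rw [Finset.sum_comm]
      exact Finset.sum_congr rfl fun a _ => Finset.sum_congr rfl fun b _ => mul_comm _ _
    · rfl
  · ext i j
    rw [h1, h2]
    simp only [FF_apply]
    have e1 : ∑ c, W i.2 c * (if c = j.2 then ∑ c', X (i.1, c') (j.1, c') else 0) =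
        W i.2 j.2 * ∑ c', X (i.1, c') (j.1, c') := by
      rw [Finset.sum_eq_single j.2]
      · rw [if_pos rfl]
      · intro c _ hc
        rw [if_neg hc, mul_zero]
      · intro h
        exact absurd (Finset.mem_univ _) h
    have e2 : ∑ c, (if i.2 = c then ∑ c', X (i.1, c') (j.1, c') else 0) * W c j.2 =
        (∑ c', X (i.1, c') (j.1, c')) * W i.2 j.2 := by
      rw [Finset.sum_eq_single i.2]
      · rw [if_pos rfl]
      · intro c _ hc
        rw [if_neg (Ne.symm hc), zero_mul]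
      · intro h
        exact absurd (Finset.mem_univ _) h
    rw [e1, e2, mul_comm]

/-- it commutes with the Hodge cocharacter -/
theorem FF_ad (t : Tp s) (X : Matrix (Ix s) (Ix s) ℂ) :
    FF ℂ s ((Pt t 2 - Pt t 0) * X - X * (Pt t 2 - Pt t 0)) =
      (Pt t 2 - Pt t 0) * FF ℂ s X - FF ℂ s X * (Pt t 2 - Pt t 0) := by
  obtain ⟨Y, W, c, hh⟩ : ∃ (Y : Matrix (Fin 2) (Fin 2) ℂ) (W : Matrix (Fin 2 × Fin s) (Fin 2 × Fin s) ℂ) (c : ℂ),
      Pt t 2 - Pt t 0 = c • (k3 Y 1 1 + kr W) := by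
    refine ⟨J ℂ + (t.1 : ℂ) • Hd ℂ - ((t.1 : ℂ) * (t.1 : ℂ)) • E ℂ,
      J ℂ ⊗ₖ 1 + Hd ℂ ⊗ₖ Bm t.2 - E ℂ ⊗ₖ (Bm t.2 * Bm t.2), (Complex.I * 2)⁻¹, ?_⟩
    have h1 : kr (J ℂ ⊗ₖ 1 + Hd ℂ ⊗ₖ Bm t.2 - E ℂ ⊗ₖ (Bm t.2 * Bm t.2)) =
        k3 1 (J ℂ) 1 + k3 1 (Hd ℂ) (Bm t.2) - k3 1 (E ℂ) (Bm t.2 * Bm t.2) := by
      ext i j
      simp only [kr, k3, Matrix.add_apply, Matrix.sub_apply, Matrix.kroneckerMap_apply]
      ring
    have h2 := Pt_sub t
    rw [Cm] at h2
    rw [h1, ← h2, smul_smul, inv_mul_cancel₀ (mul_ne_zero Complex.I_ne_zero two_ne_zero), one_smul]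
  rw [hh]
  have h1 := (FF_left Y X).1
  have h2 := (FF_left Y X).2
  have h3 := (FF_right W X).1
  have h4 := (FF_right W X).2
  rw [smul_mul_assoc, mul_smul_comm, smul_mul_assoc, mul_smul_comm, ← smul_sub, ← smul_sub, map_smul, map_sub, add_mul,
    mul_add, map_add, map_add, h1, h2, h3, add_mul, mul_add, h4]
  congr 1
  abel

/-- the coefficients of the isometry that is not in the Mumford-Tate group -/
noncomputable def dg (o : Fin s) (c : ℂ) (i : Ix s) : ℂ :=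
  if i = (0, 0, o) then c else if i = (1, 1, o) then c⁻¹ else 1

theorem dg_mul (o : Fin s) {c : ℂ} (hc : c ≠ 0) (i : Ix s) : dg o c i * dg o c⁻¹ i = 1 := by
  unfold dg
  split_ifs
  · exact mul_inv_cancel₀ hc
  · rw [inv_inv, inv_mul_cancel₀ hc]
  · rw [mul_one]

/-- the isometry -/
noncomputable def gN (o : Fin s) : GL (Ix s) ℂ where
  val := Matrix.diagonal (dg o 2)
  inv := Matrix.diagonal (dg o 2⁻¹)
  val_inv := by
    rw [Matrix.diagonal_mul_diagonal]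
    simp only [dg_mul o two_ne_zero, Matrix.diagonal_one]
  inv_val := by
    rw [Matrix.diagonal_mul_diagonal]
    simp only [mul_comm (dg o 2⁻¹ _), dg_mul o two_ne_zero, Matrix.diagonal_one]

theorem gN_isom (o : Fin s) : (gN o : Matrix (Ix s) (Ix s) ℂ)ᵀ * toC (Qf s) * (gN o : Matrix (Ix s) (Ix s) ℂ) =
    toC (Qf s) := by
  show (Matrix.diagonal (dg o 2))ᵀ * toC (Qf s) * Matrix.diagonal (dg o 2) = _
  ext i j
  rw [Matrix.diagonal_transpose, Matrix.mul_diagonal, Matrix.diagonal_mul, toC_Qf]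
  obtain ⟨i1, i2, i3⟩ := i
  obtain ⟨j1, j2, j3⟩ := j
  rw [k3_apply]
  by_cases h3 : i3 = j3
  · subst h3
    by_cases h : i3 = o
    · subst h
      fin_cases i1 <;> fin_cases i2 <;> fin_cases j1 <;> fin_cases j2 <;> simp [J, dg]
    · fin_cases i1 <;> fin_cases i2 <;> fin_cases j1 <;> fin_cases j2 <;> simp [J, dg, h]
  · rw [Matrix.one_apply_ne h3]
    simp

theorem gN_det (o : Fin s) : (gN o : Matrix (Ix s) (Ix s) ℂ).det = 1 := by
  show (Matrix.diagonal (dg o 2)).det = 1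
  rw [Matrix.det_diagonal, Fintype.prod_eq_mul (0, 0, o) (1, 1, o)]
  · simp [dg]
  · intro h
    simp at h
  · rintro i ⟨h1, h2⟩
    rw [dg, if_neg h1, if_neg h2]

theorem gN_not_mem (t : Tp s) {o o' : Fin s} (ho : o' ≠ o) : gN o ∉ MT {0, 1, 2} (Pt t) := by
  intro hg
  have hsum : Pt t 0 + Pt t 1 + Pt t 2 = 1 := by
    have h1 := (isHW_Pt t).sum
    rwa [Finset.sum_insert (by decide), Finset.sum_pair (by decide), ← add_assoc] at h1
  have h1 := SH94.MT_comm (isHW_Pt t).mul hsum (FF ℂ s) (fun A => ⟨FF ℚ s A, FF_rat A⟩) (FF_ad t) hg (k3 (E ℂ) 1 1)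
  have h2 : ∀ k : Fin s, (FF ℂ s (k3 (E ℂ) 1 1)) (0, 0, k) (1, 0, k) = 2 * (s : ℂ) := by
    intro k
    rw [FF_apply, if_pos rfl]
    have h3 : ∀ c : Fin 2 × Fin s, k3 (E ℂ) 1 1 (0, c) (1, c) = 1 := by
      intro c
      simp [k3_apply, E]
    simp only [h3, Finset.sum_const, Finset.card_univ, Fintype.card_prod, Fintype.card_fin, nsmul_eq_mul, mul_one]
    push_cast
    ring
  have h4 : ∀ k : Fin s, ((gN o : Matrix (Ix s) (Ix s) ℂ) * FF ℂ s (k3 (E ℂ) 1 1) *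
      (((gN o)⁻¹ : GL (Ix s) ℂ) : Matrix (Ix s) (Ix s) ℂ)) (0, 0, k) (1, 0, k) = (if k = o then 2 else 1) * (2 * (s : ℂ)) := by
    intro k
    show (Matrix.diagonal (dg o 2) * FF ℂ s (k3 (E ℂ) 1 1) * Matrix.diagonal (dg o 2⁻¹)) (0, 0, k) (1, 0, k) = _
    rw [Matrix.mul_diagonal, Matrix.diagonal_mul, h2]
    have h5 : dg o 2⁻¹ (1, 0, k) = 1 := by simp [dg]
    have h6 : dg o 2 (0, 0, k) = if k = o then 2 else 1 := by simp [dg]
    rw [h5, h6, mul_one]
  have h7 := congrFun (congrFun h1 (0, 0, o)) (1, 0, o)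
  have h8 := congrFun (congrFun h1 (0, 0, o')) (1, 0, o')
  rw [h4, if_pos rfl, FF_apply, if_pos rfl] at h7
  rw [h4, if_neg ho, FF_apply, if_pos rfl] at h8
  rw [h7] at h8
  have hs : (s : ℂ) ≠ 0 := by
    have h9 : 0 < s := lt_of_le_of_lt (Nat.zero_le _) o.2
    exact_mod_cast h9.ne'
  have h10 : (2 : ℂ) * s = 0 := by linear_combination h8
  exact (mul_ne_zero two_ne_zero hs) h10

/-- **Construction (1).** For every `s ≥ 2` there is a polarised Hodge structure of weight two with the Hodge numbers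
`s`, `2 s`, `s` and with only rational scalars as endomorphisms, whose Mumford-Tate group does not contain all isometries of
determinant one. -/
theorem sharp_two_s (s : ℕ) (hs : 2 ≤ s) :
    ∃ (n : Type) (_ : Fintype n) (_ : DecidableEq n) (Q : Matrix n n ℚ) (P : ℤ → Matrix n n ℂ),
      IsHW 2 Q {0, 1, 2} P ∧
      (∀ A : Matrix n n ℚ, (∀ p, toC A * P p = P p * toC A) → ∃ c : ℚ, A = c • (1 : Matrix n n ℚ)) ∧
      (P 2).rank = s ∧ (P 1).rank = 2 * s ∧ (P 0).rank = s ∧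
      ∃ g : GL n ℂ, (g : Matrix n n ℂ)ᵀ * toC Q * (g : Matrix n n ℂ) = toC Q ∧ (g : Matrix n n ℂ).det = 1 ∧
        g ∉ MT {0, 1, 2} P := by
  obtain ⟨t, ht⟩ := exists_generic27 (T := Tp s) Pt cont_Pt fun U hU hne A hA => by
    obtain ⟨t, ht⟩ := hne
    exact scalar_of_gens (by omega) (gens_mem hU ht hA)
  refine ⟨Ix s, inferInstance, inferInstance, Qf s, Pt t, isHW_Pt t, ht, rank_two t, rank_one t, rank_zero t,
    gN ⟨0, by omega⟩, gN_isom _, gN_det _, gN_not_mem t (o' := ⟨1, by omega⟩) ?_⟩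
  simp

end PG98

end MH
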