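import Pool.Agent.Helper2.PGN.K3
import Pool.Agent.Helper27.PGN.Gen

/-!
PrimeGeometricGenus (MP_b8862a_ag), construction (1): tensor products of two structures of weight one.
-/

set_option linter.unusedSectionVars false
set_option linter.unusedSimpArgs false

open Matrix
open scoped Kronecker

namespace MH

namespace PG98

variable {n : Type*} [Fintype n] [DecidableEq n]

/-- the three projections given by two commuting idempotents -/
noncomputable def dbl (a b : Matrix n n ℂ) : ℤ → Matrix n n ℂ :=
  PGN.tri (a * b) ((1 - a) * (1 - b)) (a * (1 - b) + (1 - a) * b)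

section
variable {a b : Matrix n n ℂ}

theorem dbl_mul (haa : a * a = a) (hbb : b * b = b) (hab : b * a = a * b) (p q : ℤ) :
    dbl a b p * dbl a b q = if p = q then dbl a b p else 0 := by
  have haa' : ∀ x, a * (a * x) = a * x := fun x => by rw [← mul_assoc, haa]
  have hbb' : ∀ x, b * (b * x) = b * x := fun x => by rw [← mul_assoc, hbb]
  have hab' : ∀ x, b * (a * x) = a * (b * x) := fun x => by rw [← mul_assoc, hab, mul_assoc]
  unfold dbl
  refine PGN.tri_mul ?_ ?_ ?_ ?_ ?_ ?_ ?_ ?_ ?_ p q <;>
  · simp only [mul_add, add_mul, mul_sub, sub_mul, mul_one, one_mul, mul_assoc, haa, hbb, hab, haa', hbb', hab']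
    try abel

theorem dbl_sum : ∑ p ∈ ({0, 1, 2} : Finset ℤ), dbl a b p = 1 := by
  unfold dbl
  rw [PGN.tri_sum]
  simp only [mul_sub, sub_mul, mul_one, one_mul]
  abel

theorem dbl_two : dbl a b 2 = a * b := PGN.tri_two _ _ _
theorem dbl_zero : dbl a b 0 = (1 - a) * (1 - b) := PGN.tri_zero _ _ _
theorem dbl_one : dbl a b 1 = a * (1 - b) + (1 - a) * b := PGN.tri_one _ _ _
theorem dbl_else {p : ℤ} (h2 : p ≠ 2) (h0 : p ≠ 0) (h1 : p ≠ 1) : dbl a b p = 0 := PGN.tri_else _ _ _ h2 h0 h1

/-- the Weil operator is `- (2 a - 1) (2 b - 1)` -/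
theorem weil (haa : a * a = a) (hbb : b * b = b) (hab : b * a = a * b) (p : ℤ) :
    (2 • a - 1) * (2 • b - 1) * dbl a b p = (if p = 1 then (-1 : ℂ) else 1) • dbl a b p := by
  have haa' : ∀ x, a * (a * x) = a * x := fun x => by rw [← mul_assoc, haa]
  have hbb' : ∀ x, b * (b * x) = b * x := fun x => by rw [← mul_assoc, hbb]
  have hab' : ∀ x, b * (a * x) = a * (b * x) := fun x => by rw [← mul_assoc, hab, mul_assoc]
  by_cases h1 : p = 1
  · subst h1
    rw [dbl_one, if_pos rfl, neg_one_smul]
    simp only [mul_add, add_mul, mul_sub, sub_mul, mul_one, one_mul, mul_assoc, haa, hbb, hab, haa', hbb', hab', two_smul]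
    abel
  · rw [if_neg h1, one_smul]
    by_cases h2 : p = 2
    · subst h2
      rw [dbl_two]
      simp only [mul_add, add_mul, mul_sub, sub_mul, mul_one, one_mul, mul_assoc, haa, hbb, hab, haa', hbb', hab',
        two_smul]
      abel
    · by_cases h0 : p = 0
      · subst h0
        rw [dbl_zero]
        simp only [mul_add, add_mul, mul_sub, sub_mul, mul_one, one_mul, mul_assoc, haa, hbb, hab, haa', hbb', hab',
          two_smul]
        abel
      · rw [dbl_else h2 h0 h1, mul_zero]

/-- a polarised structure of weight two from two commuting idempotents -/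
theorem isHW_dbl {Q : Matrix n n ℚ} (haa : a * a = a) (hbb : b * b = b) (hab : b * a = a * b)
    (ca : a.map (starRingEnd ℂ) = 1 - a) (cb : b.map (starRingEnd ℂ) = 1 - b) (sQ : Qᵀ = Q)
    (qa : aᵀ * toC Q = toC Q * (1 - a)) (qb : bᵀ * toC Q = toC Q * (1 - b))
    (pos : ∀ v : n → ℂ, v ≠ 0 → 0 < -(v ⬝ᵥ (toC Q *ᵥ ((2 • a - 1) * (2 • b - 1)) *ᵥ star v)).re) :
    IsHW 2 Q {0, 1, 2} (dbl a b) := by
  have c1 : ∀ x : Matrix n n ℂ, (1 - x).map (starRingEnd ℂ) = 1 - x.map (starRingEnd ℂ) := by
    intro x
    rw [Matrix.map_sub _ (map_sub _), Matrix.map_one _ (map_zero _) (map_one _)]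
  have hconj : ∀ p, (dbl a b p).map (starRingEnd ℂ) = dbl a b (2 - p) := by
    intro p
    by_cases h2 : p = 2
    · subst h2
      rw [sub_self, dbl_two, dbl_zero, Matrix.map_mul, ca, cb]
    · by_cases h0 : p = 0
      · subst h0
        rw [sub_zero, dbl_two, dbl_zero, Matrix.map_mul, c1, c1, ca, cb, sub_sub_cancel, sub_sub_cancel]
      · by_cases h1 : p = 1
        · subst h1
          have e1 : (2 : ℤ) - 1 = 1 := by norm_num
          rw [e1, dbl_one, Matrix.map_add _ (map_add _), Matrix.map_mul, Matrix.map_mul, c1, c1, ca, cb, sub_sub_cancel,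
            sub_sub_cancel, add_comm]
        · rw [dbl_else h2 h0 h1, dbl_else (by omega) (by omega) (by omega), Matrix.map_zero _ (map_zero _)]
  have horth : ∀ p, (dbl a b p)ᵀ * toC Q = toC Q * dbl a b (2 - p) := by
    have qa' : (1 - aᵀ) * toC Q = toC Q * a := by
      rw [sub_mul, one_mul, qa, mul_sub, mul_one, sub_sub_cancel]
    have qb' : (1 - bᵀ) * toC Q = toC Q * b := by
      rw [sub_mul, one_mul, qb, mul_sub, mul_one, sub_sub_cancel]
    have hab1 : (1 - b) * (1 - a) = (1 - a) * (1 - b) := by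
      simp only [mul_sub, sub_mul, mul_one, one_mul, hab]
      abel
    have hab2 : b * (1 - a) = (1 - a) * b := by
      simp only [mul_sub, sub_mul, mul_one, one_mul, hab]
    have hab3 : (1 - b) * a = a * (1 - b) := by
      simp only [mul_sub, sub_mul, mul_one, one_mul, hab]
    intro p
    by_cases h2 : p = 2
    · subst h2
      rw [sub_self, dbl_two, dbl_zero, Matrix.transpose_mul, mul_assoc, qa, ← mul_assoc, qb, mul_assoc, hab1]
    · by_cases h0 : p = 0
      · subst h0
        rw [sub_zero, dbl_two, dbl_zero, Matrix.transpose_mul, Matrix.transpose_sub, Matrix.transpose_sub,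
          Matrix.transpose_one, mul_assoc, qa', ← mul_assoc, qb', mul_assoc, hab]
      · by_cases h1 : p = 1
        · subst h1
          have e1 : (2 : ℤ) - 1 = 1 := by norm_num
          rw [e1, dbl_one, Matrix.transpose_add, Matrix.transpose_mul, Matrix.transpose_mul, Matrix.transpose_sub,
            Matrix.transpose_sub, Matrix.transpose_one, add_mul, mul_assoc, qa, ← mul_assoc, qb', mul_assoc (bᵀ), qa',
            ← mul_assoc, qb, mul_assoc, mul_assoc, hab2, hab3, ← mul_add, add_comm]
        · rw [dbl_else h2 h0 h1, dbl_else (by omega) (by omega) (by omega), Matrix.transpose_zero, zero_mul, mul_zero]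
  refine ⟨dbl_mul haa hbb hab, fun p hp => PGN.tri_supp _ _ _ p hp, dbl_sum, hconj, ?_, fun p q hpq => ?_,
    fun p v hv hv0 => ?_⟩
  · rw [sQ]
    norm_num
  · rw [horth, mul_assoc, dbl_mul haa hbb hab, if_neg (by omega), mul_zero]
  · have h1 := pos v hv0
    have h2 : dbl a b (2 - p) *ᵥ star v = star v := by
      rw [← hconj]
      conv_rhs => rw [← hv]
      funext i
      simp only [Pi.star_apply, Matrix.mulVec, dotProduct, star_sum, star_mul', Matrix.map_apply, starRingEnd_apply]
    have h3 : ((2 • a - 1) * (2 • b - 1)) *ᵥ star v = (if 2 - p = 1 then (-1 : ℂ) else 1) • star v := by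
      conv_lhs => rw [← h2]
      rw [Matrix.mulVec_mulVec, weil haa hbb hab, Matrix.smul_mulVec, h2]
    rw [Matrix.mulVec_mulVec, ← Matrix.mulVec_mulVec, h3, Matrix.mulVec_smul, dotProduct_smul] at h1
    have hp : p = 0 ∨ p = 1 ∨ p = 2 := by
      by_contra hcon
      push Not at hcon
      rw [dbl_else hcon.2.2 hcon.1 hcon.2.1, Matrix.zero_mulVec] at hv
      exact hv0 hv.symm
    rcases hp with rfl | rfl | rfl
    · have e1 : Complex.I ^ (2 * (0 : ℤ) - 2) = -1 := by norm_num
      rw [e1]
      norm_num at h1 ⊢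
      exact h1
    · have e1 : Complex.I ^ (2 * (1 : ℤ) - 2) = 1 := by norm_num
      rw [e1]
      norm_num at h1 ⊢
      exact h1
    · have e1 : Complex.I ^ (2 * (2 : ℤ) - 2) = -1 := by norm_num [Complex.I_sq]
      rw [e1]
      norm_num at h1 ⊢
      exact h1

end

end PG98

end MH
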