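import Pool.Agent.Helper98.PGN.Dbl
import Pool.Agent.Helper94.SH.Tensor

/-!
PrimeGeometricGenus (MP_b8862a_ag), construction (1): the tensor product of the structures of weight one of an elliptic curve
and of a generic abelian variety of dimension `s`.
-/

set_option linter.unusedSectionVars false
set_option linter.unusedSimpArgs false

open Matrix
open scoped Kronecker

namespace MH

namespace PG98

variable {s : ℕ}

/-- the index set -/
abbrev Ix (s : ℕ) : Type := Fin 2 × Fin 2 × Fin s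

/-- triple Kronecker product -/
def k3 {R : Type*} [Mul R] (X Y : Matrix (Fin 2) (Fin 2) R) (Z : Matrix (Fin s) (Fin s) R) : Matrix (Ix s) (Ix s) R :=
  X ⊗ₖ (Y ⊗ₖ Z)

theorem k3_apply {R : Type*} [Mul R] (X Y : Matrix (Fin 2) (Fin 2) R) (Z : Matrix (Fin s) (Fin s) R) (i j : Ix s) :
    k3 X Y Z i j = X i.1 j.1 * (Y i.2.1 j.2.1 * Z i.2.2 j.2.2) := rfl

section
variable {R : Type*} [CommRing R]

theorem k3_mul (X Y X' Y' : Matrix (Fin 2) (Fin 2) R) (Z Z' : Matrix (Fin s) (Fin s) R) :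
    k3 X Y Z * k3 X' Y' Z' = k3 (X * X') (Y * Y') (Z * Z') := by
  rw [k3, k3, k3, ← Matrix.mul_kronecker_mul, ← Matrix.mul_kronecker_mul]

theorem k3_one : k3 (1 : Matrix (Fin 2) (Fin 2) R) 1 (1 : Matrix (Fin s) (Fin s) R) = 1 := by
  rw [k3, Matrix.one_kronecker_one, Matrix.one_kronecker_one]

theorem k3_transpose (X Y : Matrix (Fin 2) (Fin 2) R) (Z : Matrix (Fin s) (Fin s) R) :
    (k3 X Y Z)ᵀ = k3 Xᵀ Yᵀ Zᵀ := by
  ext i j
  simp only [Matrix.transpose_apply, k3_apply]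

theorem k3_map {R' : Type*} [CommRing R'] (f : R →+* R') (X Y : Matrix (Fin 2) (Fin 2) R)
    (Z : Matrix (Fin s) (Fin s) R) : (k3 X Y Z).map f = k3 (X.map f) (Y.map f) (Z.map f) := by
  ext i j
  simp only [Matrix.map_apply, k3_apply, map_mul]

theorem k3_smul1 (c : R) (X Y : Matrix (Fin 2) (Fin 2) R) (Z : Matrix (Fin s) (Fin s) R) :
    k3 (c • X) Y Z = c • k3 X Y Z := by
  ext i j
  simp only [Matrix.smul_apply, k3_apply, smul_eq_mul]
  ring

theorem k3_smul2 (c : R) (X Y : Matrix (Fin 2) (Fin 2) R) (Z : Matrix (Fin s) (Fin s) R) :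
    k3 X (c • Y) Z = c • k3 X Y Z := by
  ext i j
  simp only [Matrix.smul_apply, k3_apply, smul_eq_mul]
  ring

theorem k3_add1 (X X' Y : Matrix (Fin 2) (Fin 2) R) (Z : Matrix (Fin s) (Fin s) R) :
    k3 (X + X') Y Z = k3 X Y Z + k3 X' Y Z := by
  ext i j
  simp only [Matrix.add_apply, k3_apply]
  ring

theorem k3_add2 (X Y Y' : Matrix (Fin 2) (Fin 2) R) (Z : Matrix (Fin s) (Fin s) R) :
    k3 X (Y + Y') Z = k3 X Y Z + k3 X Y' Z := by
  ext i j
  simp only [Matrix.add_apply, k3_apply]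
  ring

theorem k3_sub1 (X X' Y : Matrix (Fin 2) (Fin 2) R) (Z : Matrix (Fin s) (Fin s) R) :
    k3 (X - X') Y Z = k3 X Y Z - k3 X' Y Z := by
  ext i j
  simp only [Matrix.sub_apply, k3_apply]
  ring

theorem k3_sub2 (X Y Y' : Matrix (Fin 2) (Fin 2) R) (Z : Matrix (Fin s) (Fin s) R) :
    k3 X (Y - Y') Z = k3 X Y Z - k3 X Y' Z := by
  ext i j
  simp only [Matrix.sub_apply, k3_apply]
  ring

end

/-- `J`, with `J ^ 2 = -1` -/
def J (R : Type*) [Ring R] : Matrix (Fin 2) (Fin 2) R := !![0, -1; 1, 0]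

/-- the nilpotent matrix -/
def E (R : Type*) [Ring R] : Matrix (Fin 2) (Fin 2) R := !![0, 1; 0, 0]

/-- the diagonal matrix -/
def Hd (R : Type*) [Ring R] : Matrix (Fin 2) (Fin 2) R := !![1, 0; 0, -1]

section
variable {R : Type*} [CommRing R]

theorem J_sq : J R * J R = -1 := by
  ext i j
  fin_cases i <;> fin_cases j <;> simp [J]

theorem J_transpose : (J R)ᵀ = -J R := by
  ext i j
  fin_cases i <;> fin_cases j <;> simp [J]

theorem E_sq : E R * E R = 0 := by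
  ext i j
  fin_cases i <;> fin_cases j <;> simp [E]

theorem J_map {R' : Type*} [CommRing R'] (f : R →+* R') : (J R).map f = J R' := by
  ext i j
  fin_cases i <;> fin_cases j <;> simp [J]

theorem E_map {R' : Type*} [CommRing R'] (f : R →+* R') : (E R).map f = E R' := by
  ext i j
  fin_cases i <;> fin_cases j <;> simp [E]

theorem u_J_u (x : R) : (1 + x • E R) * J R * (1 - x • E R) = J R + x • Hd R - (x * x) • E R := by
  ext i j
  fin_cases i <;> fin_cases j <;> simp [J, E, Hd, Matrix.mul_apply, Fin.sum_univ_two, Matrix.one_apply] <;> ring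

theorem u_t_J (x : R) : (1 + x • E R)ᵀ * J R * (1 + x • E R) = J R := by
  ext i j
  fin_cases i <;> fin_cases j <;> simp [J, E, Hd, Matrix.mul_apply, Fin.sum_univ_two, Matrix.one_apply]

end

/-- the idempotent of the base point -/
noncomputable def e0 : Matrix (Fin 2) (Fin 2) ℂ := (1 / 2 : ℂ) • (1 - Complex.I • J ℂ)

theorem e0_sq : e0 * e0 = e0 := by
  have h1 : (1 - Complex.I • J ℂ) * (1 - Complex.I • J ℂ) = (2 : ℂ) • (1 - Complex.I • J ℂ) := by
    rw [sub_mul, mul_sub, mul_sub, one_mul, mul_one, one_mul, smul_mul_smul_comm, J_sq, Complex.I_mul_I, neg_one_smul,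
      neg_neg, two_smul]
    abel
  rw [e0, smul_mul_smul_comm, h1, smul_smul]
  norm_num

theorem e0_two : (2 : ℕ) • e0 - 1 = -(Complex.I • J ℂ) := by
  rw [e0, ← Nat.cast_smul_eq_nsmul ℂ, smul_smul]
  norm_num

theorem e0_map : e0.map (starRingEnd ℂ) = 1 - e0 := by
  have h2 : (starRingEnd ℂ) 2 = 2 := map_ofNat _ 2
  ext i j
  fin_cases i <;> fin_cases j <;> simp [e0, J, h2] <;> norm_num [h2]

theorem e0_transpose : e0ᵀ = 1 - e0 := by
  ext i j
  fin_cases i <;> fin_cases j <;> simp [e0, J] <;> norm_num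

theorem e0_J : (1 - e0) * J ℂ = J ℂ * (1 - e0) := by
  have h1 : e0 * J ℂ = J ℂ * e0 := by
    rw [e0, smul_mul_assoc, mul_smul_comm, sub_mul, mul_sub, one_mul, mul_one, smul_mul_assoc, mul_smul_comm]
  rw [sub_mul, mul_sub, one_mul, mul_one, h1]

/-- the idempotents of the base point -/
noncomputable def a0 (s : ℕ) : Matrix (Ix s) (Ix s) ℂ := k3 e0 1 1
noncomputable def b0 (s : ℕ) : Matrix (Ix s) (Ix s) ℂ := k3 1 e0 1

/-- the form -/
def Qf (s : ℕ) : Matrix (Ix s) (Ix s) ℚ := k3 (J ℚ) (J ℚ) 1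

theorem toC_Qf : toC (Qf s) = k3 (J ℂ) (J ℂ) 1 := by
  unfold toC Qf
  rw [k3_map, J_map, Matrix.map_one _ (map_zero _) (map_one _)]

theorem a0_sq : a0 s * a0 s = a0 s := by rw [a0, k3_mul, e0_sq, one_mul, one_mul]
theorem b0_sq : b0 s * b0 s = b0 s := by rw [b0, k3_mul, e0_sq, one_mul, one_mul]
theorem b0_a0 : b0 s * a0 s = a0 s * b0 s := by
  rw [a0, b0, k3_mul, k3_mul]
  simp only [one_mul, mul_one]

theorem one_sub_a0 : 1 - a0 s = k3 (1 - e0) 1 1 := by rw [k3_sub1, k3_one, a0]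
theorem one_sub_b0 : 1 - b0 s = k3 1 (1 - e0) 1 := by rw [k3_sub2, k3_one, b0]

theorem two_a0 : 2 • a0 s - 1 = -(Complex.I • k3 (J ℂ) 1 1) := by
  have h1 : 2 • a0 s - 1 = k3 ((2 : ℕ) • e0 - 1) 1 1 := by
    rw [k3_sub1, k3_one, two_smul, two_smul, k3_add1, a0]
  rw [h1, e0_two, ← neg_smul, k3_smul1, neg_smul]

theorem two_b0 : 2 • b0 s - 1 = -(Complex.I • k3 1 (J ℂ) 1) := by
  have h1 : 2 • b0 s - 1 = k3 1 ((2 : ℕ) • e0 - 1) 1 := by
    rw [k3_sub2, k3_one, two_smul, two_smul, k3_add2, b0]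
  rw [h1, e0_two, ← neg_smul, k3_smul2, neg_smul]

/-- the base point -/
theorem isHW_base : IsHW 2 (Qf s) {0, 1, 2} (dbl (a0 s) (b0 s)) := by
  refine isHW_dbl a0_sq b0_sq b0_a0 ?_ ?_ ?_ ?_ ?_ ?_
  · rw [one_sub_a0, a0, k3_map, e0_map, Matrix.map_one _ (map_zero _) (map_one _),
      Matrix.map_one _ (map_zero _) (map_one _)]
  · rw [one_sub_b0, b0, k3_map, e0_map, Matrix.map_one _ (map_zero _) (map_one _),
      Matrix.map_one _ (map_zero _) (map_one _)]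
  · rw [Qf, k3_transpose, J_transpose, Matrix.transpose_one, ← neg_one_smul ℚ (J ℚ), k3_smul1, k3_smul2, smul_smul]
    norm_num
  · rw [one_sub_a0, a0, toC_Qf, k3_transpose, e0_transpose, k3_mul, k3_mul, e0_J]
    simp
  · rw [one_sub_b0, b0, toC_Qf, k3_transpose, e0_transpose, k3_mul, k3_mul, e0_J]
    simp
  · intro v hv
    have h1 : toC (Qf s) * ((2 • a0 s - 1) * (2 • b0 s - 1)) = -1 := by
      rw [two_a0, two_b0, toC_Qf, neg_mul_neg, smul_mul_smul_comm, Complex.I_mul_I, k3_mul, neg_one_smul, mul_neg, k3_mul]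
      simp only [one_mul, mul_one, J_sq]
      rw [← neg_one_smul ℂ (1 : Matrix (Fin 2) (Fin 2) ℂ), k3_smul1, k3_smul2, smul_smul, k3_one]
      norm_num
    rw [Matrix.mulVec_mulVec, h1, Matrix.neg_mulVec, Matrix.one_mulVec, dotProduct_neg, Complex.neg_re, neg_neg,
      dotProduct, Complex.re_sum]
    have h2 : ∀ i, (v i * star v i).re = Complex.normSq (v i) := by
      intro i
      rw [Pi.star_apply, Complex.star_def, Complex.mul_conj, Complex.ofReal_re]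
    simp only [h2]
    obtain ⟨i, hi⟩ : ∃ i, v i ≠ 0 := by
      by_contra hcon
      push Not at hcon
      exact hv (funext hcon)
    exact Finset.sum_pos' (fun j _ => Complex.normSq_nonneg _) ⟨i, Finset.mem_univ i, Complex.normSq_pos.2 hi⟩

/-- the parameters -/
abbrev Tp (s : ℕ) : Type := ℝ × (Fin s → Fin s → ℝ)

/-- the symmetric matrix of the parameters -/
noncomputable def Bm (M : Fin s → Fin s → ℝ) : Matrix (Fin s) (Fin s) ℂ := fun i j => ((M i j + M j i : ℝ) : ℂ)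

theorem Bm_transpose (M : Fin s → Fin s → ℝ) : (Bm M)ᵀ = Bm M := by
  ext i j
  rw [Matrix.transpose_apply, Bm, Bm, add_comm]

theorem Bm_map (M : Fin s → Fin s → ℝ) : (Bm M).map (starRingEnd ℂ) = Bm M := by
  ext i j
  rw [Matrix.map_apply, Bm, Complex.conj_ofReal]

theorem Bm_add (M N : Fin s → Fin s → ℝ) : Bm (M + N) = Bm M + Bm N := by
  ext i j
  simp only [Bm, Matrix.add_apply, Pi.add_apply]
  push_cast
  ring

theorem Bm_smul (c : ℝ) (M : Fin s → Fin s → ℝ) : Bm (c • M) = (c : ℂ) • Bm M := by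
  ext i j
  simp only [Bm, Matrix.smul_apply, Pi.smul_apply, smul_eq_mul]
  push_cast
  ring

/-- the two unipotent isometries -/
noncomputable def g1 (s : ℕ) (x : ℂ) : Matrix (Ix s) (Ix s) ℂ := k3 (1 + x • E ℂ) 1 1
noncomputable def g2 (B : Matrix (Fin s) (Fin s) ℂ) : Matrix (Ix s) (Ix s) ℂ := 1 + k3 1 (E ℂ) B

theorem g1_mul (x : ℂ) : g1 s x * g1 s (-x) = 1 := by
  have h1 : (1 + x • E ℂ) * (1 + (-x) • E ℂ) = 1 := by
    rw [add_mul, mul_add, mul_add, one_mul, one_mul, mul_one, smul_mul_smul_comm, E_sq, smul_zero, add_zero, neg_smul]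
    abel
  rw [g1, g1, k3_mul, h1, one_mul, one_mul, k3_one]

theorem g2_mul (B : Matrix (Fin s) (Fin s) ℂ) : g2 B * g2 (-B) = 1 := by
  have h1 : k3 1 (E ℂ) (-B) = -k3 1 (E ℂ) B := by
    ext i j
    simp only [Matrix.neg_apply, k3_apply]
    ring
  have h2 : k3 1 (E ℂ) B * k3 1 (E ℂ) B = 0 := by
    rw [k3_mul, E_sq]
    ext i j
    simp [k3_apply]
  rw [g2, g2, h1, add_mul, mul_add, mul_add, one_mul, one_mul, mul_one, mul_neg, h2]
  abel

theorem g1_g2 (x : ℂ) (B : Matrix (Fin s) (Fin s) ℂ) : g1 s x * g2 B = g2 B * g1 s x := by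
  rw [g1, g2, mul_add, add_mul, mul_one, one_mul, k3_mul, k3_mul]
  simp only [one_mul, mul_one]

/-- the isometry -/
noncomputable def gg (x : ℂ) (B : Matrix (Fin s) (Fin s) ℂ) : Matrix (Ix s) (Ix s) ℂ := g1 s x * g2 B
noncomputable def gi (x : ℂ) (B : Matrix (Fin s) (Fin s) ℂ) : Matrix (Ix s) (Ix s) ℂ := g2 (-B) * g1 s (-x)

theorem gg_gi (x : ℂ) (B : Matrix (Fin s) (Fin s) ℂ) : gg x B * gi x B = 1 := by
  rw [gg, gi, mul_assoc, ← mul_assoc (g2 B), g2_mul, one_mul, g1_mul]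

theorem gi_gg (x : ℂ) (B : Matrix (Fin s) (Fin s) ℂ) : gi x B * gg x B = 1 := by
  have h1 := g1_mul (s := s) (-x)
  have h2 := g2_mul (-B)
  rw [neg_neg] at h1 h2
  rw [gg, gi, mul_assoc, ← mul_assoc (g1 s (-x)), h1, one_mul, h2]

theorem gg_map (x : ℝ) (M : Fin s → Fin s → ℝ) :
    (gg (x : ℂ) (Bm M)).map (starRingEnd ℂ) = gg (x : ℂ) (Bm M) := by
  have h1 : (1 + (x : ℂ) • E ℂ).map (starRingEnd ℂ) = 1 + (x : ℂ) • E ℂ := by
    ext i j
    fin_cases i <;> fin_cases j <;> simp [E]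
  have h2 : (E ℂ).map (starRingEnd ℂ) = E ℂ := E_map _
  rw [gg, Matrix.map_mul, g1, g2, Matrix.map_add _ (map_add _), k3_map, k3_map, h1, h2, Bm_map,
    Matrix.map_one _ (map_zero _) (map_one _), Matrix.map_one _ (map_zero _) (map_one _),
    Matrix.map_one _ (map_zero _) (map_one _)]

theorem gg_isom (x : ℂ) {B : Matrix (Fin s) (Fin s) ℂ} (hB : Bᵀ = B) :
    (gg x B)ᵀ * toC (Qf s) * gg x B = toC (Qf s) := by
  have h1 : (g1 s x)ᵀ * toC (Qf s) * g1 s x = toC (Qf s) := by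
    rw [g1, toC_Qf, k3_transpose, k3_mul, k3_mul, u_t_J]
    simp
  have h2 : (g2 B)ᵀ * toC (Qf s) * g2 B = toC (Qf s) := by
    have e1 : (E ℂ)ᵀ * J ℂ + J ℂ * E ℂ = 0 := by
      ext i j
      fin_cases i <;> fin_cases j <;> simp [E, J, Matrix.mul_apply, Fin.sum_univ_two]
    have e2 : (E ℂ)ᵀ * J ℂ * E ℂ = 0 := by
      ext i j
      fin_cases i <;> fin_cases j <;> simp [E, J, Matrix.mul_apply, Fin.sum_univ_two]
    have e5 : ∀ (T Z X : Matrix (Ix s) (Ix s) ℂ), (1 + T) * Z * (1 + X) = Z + (T * Z + Z * X) + T * Z * X := by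
      intro T Z X
      noncomm_ring
    rw [g2, toC_Qf, Matrix.transpose_add, Matrix.transpose_one, k3_transpose, hB, Matrix.transpose_one, e5, k3_mul,
      k3_mul, k3_mul, e2]
    have e4 : k3 (1 * J ℂ * 1) (0 : Matrix (Fin 2) (Fin 2) ℂ) (B * 1 * B) = 0 := by
      ext i j
      simp [k3_apply]
    have e6 : k3 (1 * J ℂ) ((E ℂ)ᵀ * J ℂ) (B * 1) + k3 (J ℂ * 1) (J ℂ * E ℂ) (1 * B) = 0 := by
      rw [one_mul, mul_one, mul_one, one_mul, ← k3_add2, e1]
      ext i j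
      simp [k3_apply]
    rw [e4, e6, add_zero, add_zero]
  rw [gg, Matrix.transpose_mul]
  calc (g2 B)ᵀ * (g1 s x)ᵀ * toC (Qf s) * (g1 s x * g2 B)
      = (g2 B)ᵀ * ((g1 s x)ᵀ * toC (Qf s) * g1 s x) * g2 B := by simp only [mul_assoc]
    _ = toC (Qf s) := by rw [h1, h2]

/-- the family -/
noncomputable def Pt (t : Tp s) (p : ℤ) : Matrix (Ix s) (Ix s) ℂ :=
  gg (t.1 : ℂ) (Bm t.2) * dbl (a0 s) (b0 s) p * gi (t.1 : ℂ) (Bm t.2)

theorem isHW_Pt (t : Tp s) : IsHW 2 (Qf s) {0, 1, 2} (Pt t) :=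
  isHW_base.conj27 (gg_gi _ _) (gi_gg _ _) (gg_map _ _) (gg_isom _ (Bm_transpose _))

/-! ### the ranks -/

theorem k3_trace (X Y : Matrix (Fin 2) (Fin 2) ℂ) (Z : Matrix (Fin s) (Fin s) ℂ) :
    (k3 X Y Z).trace = X.trace * (Y.trace * Z.trace) := by
  rw [k3, Matrix.trace_kronecker, Matrix.trace_kronecker]

theorem e0_trace : e0.trace = 1 := by
  rw [Matrix.trace_fin_two]
  simp [e0, J]
  norm_num

theorem rank_Pt (t : Tp s) (p : ℤ) : (Pt t p).rank = (dbl (a0 s) (b0 s) p).rank :=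
  rank_conj27 (gg_gi _ _) (gi_gg _ _) _

theorem rank_two (t : Tp s) : (Pt t 2).rank = s := by
  have h1 := trace_eq_rank (P := dbl (a0 s) (b0 s) 2) (by rw [dbl_mul a0_sq b0_sq b0_a0, if_pos rfl])
  rw [rank_Pt]
  rw [dbl_two] at h1 ⊢
  have h2 : a0 s * b0 s = k3 e0 e0 1 := by rw [a0, b0, k3_mul]; simp
  rw [h2] at h1 ⊢
  rw [k3_trace, e0_trace, one_mul, one_mul, Matrix.trace_one, Fintype.card_fin] at h1
  exact_mod_cast h1.symm

theorem rank_zero (t : Tp s) : (Pt t 0).rank = s := by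
  have h1 := trace_eq_rank (P := dbl (a0 s) (b0 s) 0) (by rw [dbl_mul a0_sq b0_sq b0_a0, if_pos rfl])
  rw [rank_Pt]
  rw [dbl_zero] at h1 ⊢
  have h2 : (1 - a0 s) * (1 - b0 s) = k3 (1 - e0) (1 - e0) 1 := by rw [one_sub_a0, one_sub_b0, k3_mul]; simp
  rw [h2] at h1 ⊢
  rw [k3_trace, Matrix.trace_sub, e0_trace, Matrix.trace_one, Matrix.trace_one, Fintype.card_fin, Fintype.card_fin] at h1
  norm_num at h1
  exact_mod_cast h1.symm

theorem rank_one (t : Tp s) : (Pt t 1).rank = 2 * s := by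
  have h1 := (isHW_Pt t).sum
  have h2 := congrArg Matrix.trace h1
  have h3 : ∀ p, Pt t p * Pt t p = Pt t p := fun p => by rw [(isHW_Pt t).mul, if_pos rfl]
  rw [Matrix.trace_sum, Finset.sum_insert (by decide), Finset.sum_pair (by decide), Matrix.trace_one,
    trace_eq_rank (h3 0), trace_eq_rank (h3 1), trace_eq_rank (h3 2), rank_zero, rank_two, Fintype.card_prod,
    Fintype.card_prod, Fintype.card_fin, Fintype.card_fin] at h2
  have h4 : s + ((Pt t 1).rank + s) = 2 * (2 * s) := by exact_mod_cast h2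
  omega

/-! ### continuity -/

theorem cont_k3 {T : Type*} [TopologicalSpace T] {X Y : T → Matrix (Fin 2) (Fin 2) ℂ} {Z : T → Matrix (Fin s) (Fin s) ℂ}
    (hX : Continuous X) (hY : Continuous Y) (hZ : Continuous Z) : Continuous fun t => k3 (X t) (Y t) (Z t) := by
  refine continuous_matrix fun i j => ?_
  simp only [k3_apply]
  exact (hX.matrix_elem _ _).mul ((hY.matrix_elem _ _).mul (hZ.matrix_elem _ _))

theorem cont_Bm : Continuous fun t : Tp s => Bm t.2 := by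
  refine continuous_matrix fun i j => ?_
  simp only [Bm]
  have h1 : Continuous fun t : Tp s => t.2 i j := (continuous_apply_apply i j).comp continuous_snd
  have h2 : Continuous fun t : Tp s => t.2 j i := (continuous_apply_apply j i).comp continuous_snd
  exact Complex.continuous_ofReal.comp (h1.add h2)

theorem cont_x : Continuous fun t : Tp s => (t.1 : ℂ) := Complex.continuous_ofReal.comp continuous_fst

theorem cont_Pt (p : ℤ) : Continuous fun t : Tp s => Pt t p := by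
  unfold Pt gg gi g1 g2
  have h1 : Continuous fun t : Tp s => (1 + (t.1 : ℂ) • E ℂ) := continuous_const.add (cont_x.smul continuous_const)
  have h2 : Continuous fun t : Tp s => (1 + (-(t.1 : ℂ)) • E ℂ) :=
    continuous_const.add (cont_x.neg.smul continuous_const)
  have h3 := cont_k3 h1 continuous_const (continuous_const (y := (1 : Matrix (Fin s) (Fin s) ℂ)))
    (Y := fun _ => (1 : Matrix (Fin 2) (Fin 2) ℂ))
  have h4 := cont_k3 h2 continuous_const (continuous_const (y := (1 : Matrix (Fin s) (Fin s) ℂ)))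
    (Y := fun _ => (1 : Matrix (Fin 2) (Fin 2) ℂ))
  have h5 := cont_k3 (X := fun _ => (1 : Matrix (Fin 2) (Fin 2) ℂ)) (Y := fun _ => E ℂ) continuous_const
    continuous_const (cont_Bm (s := s))
  have h6 := cont_k3 (X := fun _ => (1 : Matrix (Fin 2) (Fin 2) ℂ)) (Y := fun _ => E ℂ) continuous_const
    continuous_const (cont_Bm (s := s)).neg
  exact ((h3.matrix_mul (continuous_const.add h5)).matrix_mul continuous_const).matrix_mul
    ((continuous_const.add h6).matrix_mul h4)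

/-! ### the commutant -/

/-- the sum of the two complex structures -/
noncomputable def Cm (x : ℂ) (B : Matrix (Fin s) (Fin s) ℂ) : Matrix (Ix s) (Ix s) ℂ :=
  k3 (J ℂ + x • Hd ℂ - (x * x) • E ℂ) 1 1 + (k3 1 (J ℂ) 1 + k3 1 (Hd ℂ) B - k3 1 (E ℂ) (B * B))

theorem conj_a (x : ℂ) (B : Matrix (Fin s) (Fin s) ℂ) :
    gg x B * (2 • a0 s - 1) * gi x B = -(Complex.I • k3 (J ℂ + x • Hd ℂ - (x * x) • E ℂ) 1 1) := by
  have h1 : g2 B * k3 (J ℂ) 1 1 = k3 (J ℂ) 1 1 * g2 B := by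
    rw [g2, mul_add, add_mul, mul_one, one_mul, k3_mul, k3_mul]
    simp only [one_mul, mul_one]
  have h2 : g1 s x * k3 (J ℂ) 1 1 * g1 s (-x) = k3 (J ℂ + x • Hd ℂ - (x * x) • E ℂ) 1 1 := by
    rw [g1, g1, k3_mul, k3_mul, neg_smul, ← sub_eq_add_neg, u_J_u]
    simp
  have h3 : gg x B * k3 (J ℂ) 1 1 * gi x B = k3 (J ℂ + x • Hd ℂ - (x * x) • E ℂ) 1 1 := by
    rw [← h2, gg, gi]
    calc g1 s x * g2 B * k3 (J ℂ) 1 1 * (g2 (-B) * g1 s (-x))
        = g1 s x * (g2 B * k3 (J ℂ) 1 1) * g2 (-B) * g1 s (-x) := by simp only [mul_assoc]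
      _ = g1 s x * k3 (J ℂ) 1 1 * (g2 B * g2 (-B)) * g1 s (-x) := by rw [h1]; simp only [mul_assoc]
      _ = g1 s x * k3 (J ℂ) 1 1 * g1 s (-x) := by rw [g2_mul, mul_one]
  rw [two_a0, mul_neg, neg_mul, mul_smul_comm, smul_mul_assoc, h3]

theorem conj_b (x : ℂ) (B : Matrix (Fin s) (Fin s) ℂ) :
    gg x B * (2 • b0 s - 1) * gi x B =
      -(Complex.I • (k3 1 (J ℂ) 1 + k3 1 (Hd ℂ) B - k3 1 (E ℂ) (B * B))) := by
  have h1 : ∀ X : Matrix (Fin 2) (Fin 2) ℂ, ∀ Z : Matrix (Fin s) (Fin s) ℂ, g1 s x * k3 1 X Z = k3 1 X Z * g1 s x := by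
    intro X Z
    rw [g1, k3_mul, k3_mul]
    simp only [one_mul, mul_one]
  have h0 : k3 1 (E ℂ) (-B) = -k3 1 (E ℂ) B := by
    ext i j
    simp only [Matrix.neg_apply, k3_apply]
    ring
  have e1 : E ℂ * J ℂ - J ℂ * E ℂ = Hd ℂ := by
    ext i j
    fin_cases i <;> fin_cases j <;> simp [E, J, Hd, Matrix.mul_apply, Fin.sum_univ_two]
  have e2 : E ℂ * J ℂ * E ℂ = E ℂ := by
    ext i j
    fin_cases i <;> fin_cases j <;> simp [E, J, Matrix.mul_apply, Fin.sum_univ_two]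
  have h2 : g2 B * k3 1 (J ℂ) 1 * g2 (-B) = k3 1 (J ℂ) 1 + k3 1 (Hd ℂ) B - k3 1 (E ℂ) (B * B) := by
    have e5 : ∀ (T Z : Matrix (Ix s) (Ix s) ℂ), (1 + T) * Z * (1 + -T) = Z + (T * Z - Z * T) - T * Z * T := by
      intro T Z
      noncomm_ring
    rw [g2, g2, h0, e5, k3_mul, k3_mul, k3_mul, e2]
    simp only [one_mul, mul_one]
    rw [← k3_sub2, e1]
  have h3 : gg x B * k3 1 (J ℂ) 1 * gi x B = k3 1 (J ℂ) 1 + k3 1 (Hd ℂ) B - k3 1 (E ℂ) (B * B) := by
    rw [← h2, gg, gi, g1_g2]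
    calc g2 B * g1 s x * k3 1 (J ℂ) 1 * (g2 (-B) * g1 s (-x))
        = g2 B * (g1 s x * k3 1 (J ℂ) 1) * (g2 (-B) * g1 s (-x)) := by simp only [mul_assoc]
      _ = g2 B * k3 1 (J ℂ) 1 * (g1 s x * g2 (-B)) * g1 s (-x) := by rw [h1]; simp only [mul_assoc]
      _ = g2 B * k3 1 (J ℂ) 1 * g2 (-B) * (g1 s x * g1 s (-x)) := by rw [g1_g2]; simp only [mul_assoc]
      _ = g2 B * k3 1 (J ℂ) 1 * g2 (-B) := by rw [g1_mul, mul_one]
  rw [two_b0, mul_neg, neg_mul, mul_smul_comm, smul_mul_assoc, h3]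

theorem Pt_sub (t : Tp s) : (Complex.I * 2) • (Pt t 2 - Pt t 0) = Cm (t.1 : ℂ) (Bm t.2) := by
  have e1 : (2 : ℂ) • (dbl (a0 s) (b0 s) 2 - dbl (a0 s) (b0 s) 0) = (2 • a0 s - 1) + (2 • b0 s - 1) := by
    rw [dbl_two, dbl_zero, two_smul, two_smul, two_smul]
    noncomm_ring
  have e2 : (2 : ℂ) • (Pt t 2 - Pt t 0) = gg (t.1 : ℂ) (Bm t.2) * (2 • a0 s - 1) * gi (t.1 : ℂ) (Bm t.2) +
      gg (t.1 : ℂ) (Bm t.2) * (2 • b0 s - 1) * gi (t.1 : ℂ) (Bm t.2) := by
    rw [← add_mul, ← mul_add, ← e1, mul_smul_comm, smul_mul_assoc, mul_sub, sub_mul]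
    rfl
  rw [mul_smul, e2, conj_a, conj_b, smul_add, smul_neg, smul_neg, smul_smul, smul_smul, Complex.I_mul_I,
    neg_one_smul, neg_one_smul, neg_neg, neg_neg]
  rfl

/-- a matrix that commutes with all the projections commutes with `Cm` -/
theorem comm_Cm {t : Tp s} {X : Matrix (Ix s) (Ix s) ℂ} (h : ∀ p, X * Pt t p = Pt t p * X) :
    X * Cm (t.1 : ℂ) (Bm t.2) = Cm (t.1 : ℂ) (Bm t.2) * X := by
  rw [← Pt_sub, mul_smul_comm, smul_mul_assoc, mul_sub, sub_mul, h, h]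

end PG98

end MH
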